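import Pool.Agent.H61.KU.TC

/-!
# Kuiper board, module FAC: basic facts on faces of a polyhedral cone
-/

open Set

namespace Pool.Agent.H20.KU

open Pool.Agent.H61.KU

section basic

variable {ι W : Type} [AddCommGroup W] [Module ℝ W]

theorem sp_mono (v : ι → W) {F G : Finset ι} (h : F ⊆ G) : sp v F ≤ sp v G := by
  unfold sp
  exact Submodule.span_mono (Set.image_mono (by exact_mod_cast h))

theorem mem_sp (v : ι → W) {F : Finset ι} {i : ι} (h : i ∈ F) : v i ∈ sp v F := by
  unfold sp
  exact Submodule.subset_span ⟨i, by exact_mod_cast h, rfl⟩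

theorem sp_le_ker (v : ι → W) {F : Finset ι} {l : W →ₗ[ℝ] ℝ} (h : ∀ i ∈ F, l (v i) = 0) :
    sp v F ≤ LinearMap.ker l := by
  unfold sp
  rw [Submodule.span_le]
  rintro _ ⟨i, hi, rfl⟩
  exact h i (by exact_mod_cast hi)

theorem face_mem (v : ι → W) {F : Finset ι} {i : ι} (hF : IsFace v F) (h : v i ∈ sp v F) :
    i ∈ F := by
  obtain ⟨l, _, hl⟩ := hF
  exact (hl i).1 (sp_le_ker v (fun j hj => (hl j).2 hj) h)

end basic

theorem pf_fac : T_FAC := by
  intro ι W _ _ _ _ _ v
  refine ⟨?_, ?_, ?_, ?_, ?_, ?_, ?_⟩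
  · exact ⟨0, fun i => by simp, fun i => by simp⟩
  · rintro F G ⟨l, hl, hlF⟩ ⟨m, hm, hmG⟩
    refine ⟨l + m, fun i => by simpa using add_nonneg (hl i) (hm i), fun i => ?_⟩
    rw [Finset.mem_inter, ← hlF i, ← hmG i, LinearMap.add_apply]
    constructor
    · intro h
      have h1 := hl i
      have h2 := hm i
      exact ⟨by linarith, by linarith⟩
    · rintro ⟨h1, h2⟩
      rw [h1, h2, add_zero]
  · intro F i hF h
    exact face_mem v hF h
  · rintro F ⟨m, hm, hmF⟩ l hl
    classical
    -- a large multiple of `m` dominates `l` off `F`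
    obtain ⟨N, hN⟩ : ∃ N : ℝ, ∀ i, i ∉ F → 0 < l (v i) + N * m (v i) := by
      have hpos : ∀ i, i ∉ F → 0 < m (v i) := fun i hi =>
        lt_of_le_of_ne (hm i) (fun h => hi ((hmF i).1 h.symm))
      refine ⟨∑ i, |l (v i) / m (v i)| + 1, fun i hi => ?_⟩
      have h1 : |l (v i) / m (v i)| ≤ ∑ i, |l (v i) / m (v i)| :=
        Finset.single_le_sum (f := fun i => |l (v i) / m (v i)|)
          (fun j _ => abs_nonneg _) (Finset.mem_univ i)
      have h2 : -(l (v i) / m (v i)) ≤ |l (v i) / m (v i)| := neg_le_abs _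
      have h3 := hpos i hi
      have h4 : -(l (v i) / m (v i)) < ∑ i, |l (v i) / m (v i)| + 1 := by linarith
      have h5 : -(l (v i) / m (v i)) * m (v i) < (∑ i, |l (v i) / m (v i)| + 1) * m (v i) :=
        mul_lt_mul_of_pos_right h4 h3
      have h6 : -(l (v i) / m (v i)) * m (v i) = -l (v i) := by
        field_simp
      linarith
    refine ⟨Finset.univ.filter (fun i => i ∈ F ∧ l (v i) = 0), ⟨l + N • m, ?_, ?_⟩, ?_⟩
    · intro i
      by_cases hi : i ∈ F
      · have := (hmF i).2 hi
        simp only [LinearMap.add_apply, LinearMap.smul_apply, smul_eq_mul, this, mul_zero,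
          add_zero]
        exact hl i hi
      · simpa using (hN i hi).le
    · intro i
      simp only [LinearMap.add_apply, LinearMap.smul_apply, smul_eq_mul, Finset.mem_filter,
        Finset.mem_univ, true_and]
      constructor
      · intro h
        by_cases hi : i ∈ F
        · have := (hmF i).2 hi
          rw [this, mul_zero, add_zero] at h
          exact ⟨hi, h⟩
        · have := hN i hi
          linarith
      · rintro ⟨hi, h⟩
        rw [h, (hmF i).2 hi, mul_zero, add_zero]
    · intro i
      simp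
  · intro F G hF hFG
    obtain ⟨i, hiG, hiF⟩ := Finset.exists_of_ssubset hFG
    apply Submodule.finrank_lt_finrank_of_lt
    refine lt_of_le_of_ne (sp_mono v hFG.1) ?_
    intro h
    exact hiF (face_mem v hF (h ▸ mem_sp v hiG))
  · intro F G h
    exact ⟨sp_mono v h, Submodule.finrank_mono (sp_mono v h)⟩
  · intro F i hF hi
    have hne : v i ∉ sp v F := fun h => hi (face_mem v hF h)
    have hsp : sp v (insert i F) = Submodule.span ℝ {v i} ⊔ sp v F := by
      unfold sp
      rw [Finset.coe_insert, Set.image_insert_eq, Submodule.span_insert]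
    have hv : v i ≠ 0 := fun h => hne (h ▸ Submodule.zero_mem _)
    have hinf : Submodule.span ℝ {v i} ⊓ sp v F = ⊥ := by
      rw [Submodule.eq_bot_iff]
      intro x hx
      obtain ⟨hx1, hx2⟩ := Submodule.mem_inf.1 hx
      obtain ⟨c, rfl⟩ := Submodule.mem_span_singleton.1 hx1
      by_cases hc : c = 0
      · rw [hc, zero_smul]
      · exfalso
        apply hne
        have := Submodule.smul_mem (sp v F) c⁻¹ hx2
        rwa [smul_smul, inv_mul_cancel₀ hc, one_smul] at this
    have h := Submodule.finrank_sup_add_finrank_inf_eq (Submodule.span ℝ {v i}) (sp v F)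
    rw [hinf, finrank_bot, add_zero, finrank_span_singleton hv, ← hsp] at h
    unfold rk
    omega

end Pool.Agent.H20.KU
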