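import Pool.Agent.H20.KU.FAC

/-!
# Kuiper board, module MIN: a face of the next rank between two faces
-/

open Set

namespace Pool.Agent.H20.KU

open Pool.Agent.H61.KU

/-- Rotation step: a functional `m` vanishing on `T` and negative somewhere on `Z`, a functional
`t` which is nonnegative on `Z` and positive where `m` is negative; then some `t + s m`, `s > 0`,
is nonnegative on `Z` and vanishes at some index where `m` is negative. -/
theorem rotate {ι W : Type} [AddCommGroup W] [Module ℝ W] (v : ι → W) (Z : Finset ι)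
    (t m : W →ₗ[ℝ] ℝ) (ht : ∀ i ∈ Z, 0 ≤ t (v i))
    (hpos : ∀ i ∈ Z, m (v i) < 0 → 0 < t (v i)) (hne : ∃ i ∈ Z, m (v i) < 0) :
    ∃ s : ℝ, 0 < s ∧ (∀ i ∈ Z, 0 ≤ t (v i) + s * m (v i)) ∧
      ∃ i ∈ Z, m (v i) < 0 ∧ t (v i) + s * m (v i) = 0 := by
  classical
  obtain ⟨i1, hi1, hmi1⟩ := hne
  obtain ⟨i0, hi0, hmin⟩ := Finset.exists_min_image (Z.filter (fun i => m (v i) < 0))
    (fun i => t (v i) / (-m (v i))) ⟨i1, by simp [hi1, hmi1]⟩
  rw [Finset.mem_filter] at hi0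
  have h0 : 0 < -m (v i0) := by linarith [hi0.2]
  refine ⟨t (v i0) / (-m (v i0)), div_pos (hpos i0 hi0.1 hi0.2) h0, ?_, i0, hi0.1, hi0.2, ?_⟩
  · intro i hi
    by_cases hm : m (v i) < 0
    · have h1 := hmin i (by simp [hi, hm])
      have h2 : 0 < -m (v i) := by linarith
      have h3 : t (v i0) / (-m (v i0)) * (-m (v i)) ≤ t (v i) := by
        calc t (v i0) / (-m (v i0)) * (-m (v i)) ≤ t (v i) / (-m (v i)) * (-m (v i)) :=
              mul_le_mul_of_nonneg_right h1 h2.le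
          _ = t (v i) := div_mul_cancel₀ _ h2.ne'
      linarith
    · have h1 := ht i hi
      have h2 : 0 ≤ t (v i0) / (-m (v i0)) := (div_pos (hpos i0 hi0.1 hi0.2) h0).le
      have h3 : 0 ≤ t (v i0) / (-m (v i0)) * m (v i) := mul_nonneg h2 (not_lt.1 hm)
      linarith
  · have h3 : t (v i0) / (-m (v i0)) * (-m (v i0)) = t (v i0) := div_mul_cancel₀ _ h0.ne'
    linarith

/-- a functional vanishing on a subspace and negative at a given vector outside of it -/
theorem exists_neg {W : Type} [AddCommGroup W] [Module ℝ W]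
    (P : Submodule ℝ W) (z : W) (hz : z ∉ P) :
    ∃ m : W →ₗ[ℝ] ℝ, (∀ x ∈ P, m x = 0) ∧ m z < 0 := by
  obtain ⟨f, hf, hP⟩ := Submodule.exists_le_ker_of_notMem hz
  rcases lt_or_gt_of_ne hf with h | h
  · exact ⟨f, fun x hx => hP hx, h⟩
  · refine ⟨-f, fun x hx => ?_, by simpa using h⟩
    have : f x = 0 := hP hx
    simp [this]

theorem exists_index {ι W : Type} [AddCommGroup W] [Module ℝ W] (v : ι → W) (Z : Finset ι)
    (P : Submodule ℝ W) (h : ¬ sp v Z ≤ P) : ∃ i ∈ Z, v i ∉ P := by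
  by_contra hcon
  push Not at hcon
  apply h
  unfold sp
  rw [Submodule.span_le]
  rintro _ ⟨i, hi, rfl⟩
  exact hcon i (by exact_mod_cast hi)

theorem pf_min (hF : T_FAC) : T_MIN := by
  intro ι W _ _ _ _ _ v T Z hT hZ hTZ
  classical
  obtain ⟨_, _, h3, h4, h5, h6, h7⟩ := hF ι W v
  -- a face of minimal cardinality
  obtain ⟨F, hFmem, hFmin⟩ := Finset.exists_min_image
    (Finset.univ.filter (fun F : Finset ι => IsFace v F ∧ T ⊂ F ∧ F ⊆ Z)) Finset.card
    ⟨Z, by simp [hZ, hTZ]⟩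
  simp only [Finset.mem_filter, Finset.mem_univ, true_and] at hFmem hFmin
  obtain ⟨hFf, hTF, hFZ⟩ := hFmem
  refine ⟨F, hFf, hTF, hFZ, ?_⟩
  have hlt := h5 T F hT hTF
  by_contra hne
  have hge : rk v T + 2 ≤ rk v F := by omega
  obtain ⟨x, hxF, hxT⟩ := Finset.exists_of_ssubset hTF
  have hrk := h7 T x hT hxT
  have hnle : ¬ sp v F ≤ sp v (insert x T) := by
    intro hle
    have : rk v F ≤ rk v (insert x T) := Submodule.finrank_mono hle
    omega
  obtain ⟨i1, hi1, hi1n⟩ := exists_index v F _ hnle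
  obtain ⟨m, hm0, hmneg⟩ := exists_neg _ _ hi1n
  obtain ⟨t, ht, htT⟩ := hT
  have hmT : ∀ i ∈ T, m (v i) = 0 := fun i hi =>
    hm0 _ (mem_sp v (Finset.mem_insert_of_mem hi))
  have hmx : m (v x) = 0 := hm0 _ (mem_sp v (Finset.mem_insert_self _ _))
  obtain ⟨s, hs, hnn, i0, hi0, hmi0, hz⟩ := rotate v F t m (fun i _ => ht i)
    (fun i _ hmi => lt_of_le_of_ne (ht i) (fun h0 => by
      have := hmT i ((htT i).1 h0.symm)
      linarith)) ⟨i1, hi1, hmneg⟩
  obtain ⟨G, hG, hGi⟩ := h4 F hFf (t + s • m) (fun i hi => by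
    simpa using hnn i hi)
  have hi0T : i0 ∉ T := fun h => by have := hmT i0 h; linarith
  have hTG : T ⊂ G := by
    refine (Finset.ssubset_iff_of_subset ?_).2 ⟨i0, (hGi i0).2 ⟨hi0, by simpa using hz⟩, hi0T⟩
    intro i hi
    refine (hGi i).2 ⟨hTF.1 hi, ?_⟩
    have h1 := (htT i).2 hi
    have h2 := hmT i hi
    simp [h1, h2]
  have hGF : G ⊆ F := fun i hi => ((hGi i).1 hi).1
  have hxG : x ∉ G := by
    intro h
    have h1 := ((hGi x).1 h).2
    simp only [LinearMap.add_apply, LinearMap.smul_apply, smul_eq_mul, hmx, mul_zero,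
      add_zero] at h1
    exact hxT ((htT x).1 h1)
  have hcard := hFmin G ⟨hG, hTG, hGF.trans hFZ⟩
  have hss : G ⊂ F := (Finset.ssubset_iff_of_subset hGF).2 ⟨x, hxF, hxG⟩
  have := Finset.card_lt_card hss
  omega

end Pool.Agent.H20.KU
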