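import Pool.Agent.H20.KU.MIN

/-!
# Kuiper board, module ROT: rotation of a supporting hyperplane
-/

open Set

namespace Pool.Agent.H20.KU

open Pool.Agent.H61.KU

theorem pf_rot (hF : T_FAC) : T_ROT := by
  intro ι W _ _ _ _ _ v Z F G hZ hFf hG hFZ hGZ
  classical
  obtain ⟨_, _, h3, h4, h5, h6, h7⟩ := hF ι W v
  -- a face of maximal cardinality
  obtain ⟨R, hRmem, hRmax⟩ := Finset.exists_max_image
    (Finset.univ.filter (fun R : Finset ι => IsFace v R ∧ G ⊆ R ∧ R ⊆ Z ∧ R ∩ F = G ∩ F))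
    Finset.card ⟨G, by simp [hG, hGZ]⟩
  simp only [Finset.mem_filter, Finset.mem_univ, true_and] at hRmem hRmax
  obtain ⟨hR, hGR, hRZ, hRF⟩ := hRmem
  refine ⟨R, hR, hGR, hRZ, hRF, ?_⟩
  have hle : sp v R ⊔ sp v F ≤ sp v Z := sup_le (sp_mono v hRZ) (sp_mono v hFZ)
  refine le_antisymm hle ?_
  by_contra hnle
  obtain ⟨i1, hi1, hi1n⟩ := exists_index v Z _ hnle
  obtain ⟨m, hm0, hmneg⟩ := exists_neg _ _ hi1n
  have hmR : ∀ i ∈ R, m (v i) = 0 := fun i hi =>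
    hm0 _ ((le_sup_left : sp v R ≤ sp v R ⊔ sp v F) (mem_sp v hi))
  have hmF : ∀ i ∈ F, m (v i) = 0 := fun i hi =>
    hm0 _ ((le_sup_right : sp v F ≤ sp v R ⊔ sp v F) (mem_sp v hi))
  obtain ⟨r, hr, hrR⟩ := hR
  obtain ⟨s, hs, hnn, i0, hi0, hmi0, hz⟩ := rotate v Z r m (fun i _ => hr i)
    (fun i _ hmi => lt_of_le_of_ne (hr i) (fun h0 => by
      have := hmR i ((hrR i).1 h0.symm)
      linarith)) ⟨i1, hi1, hmneg⟩
  obtain ⟨G', hG', hGi⟩ := h4 Z hZ (r + s • m) (fun i hi => by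
    simpa using hnn i hi)
  have hi0R : i0 ∉ R := fun h => by have := hmR i0 h; linarith
  have hRG : R ⊆ G' := by
    intro i hi
    refine (hGi i).2 ⟨hRZ hi, ?_⟩
    have h1 := (hrR i).2 hi
    have h2 := hmR i hi
    simp [h1, h2]
  have hinter : G' ∩ F = G ∩ F := by
    rw [← hRF]
    ext i
    rw [Finset.mem_inter, Finset.mem_inter]
    constructor
    · rintro ⟨h1, h2⟩
      refine ⟨?_, h2⟩
      have h8 := ((hGi i).1 h1).2
      simp only [LinearMap.add_apply, LinearMap.smul_apply, smul_eq_mul, hmF i h2, mul_zero,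
        add_zero] at h8
      exact (hrR i).1 h8
    · rintro ⟨h1, h2⟩
      exact ⟨hRG h1, h2⟩
  have hcard := hRmax G' ⟨hG', hGR.trans hRG, fun i hi => ((hGi i).1 hi).1, hinter⟩
  have hss : R ⊂ G' := (Finset.ssubset_iff_of_subset hRG).2
    ⟨i0, (hGi i0).2 ⟨hi0, by simpa using hz⟩, hi0R⟩
  have := Finset.card_lt_card hss
  omega

end Pool.Agent.H20.KU
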